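import Mathlib

open FirstOrder FirstOrder.Language

namespace H11.FHP

universe w

/-- `FHP(k, α, β)` for a family `F` of subsets of `X` (repetitions allowed among the `S i`). -/
def FamFHP {X : Type w} (F : Set (Set X)) (k : ℕ) (α β : ℝ) : Prop :=
  ∀ (n : ℕ) (S : Fin n → Set X), (∀ i, S i ∈ F) →
    α * (n.choose k : ℝ) ≤
      (({J : Finset (Fin n) | J.card = k ∧ (⋂ i ∈ J, S i).Nonempty}.ncard : ℕ) : ℝ) →
    ∃ J : Finset (Fin n), β * (n : ℝ) ≤ (J.card : ℝ) ∧ (⋂ i ∈ J, S i).Nonempty

variable {L : FirstOrder.Language.{0, 0}} {m n : ℕ}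

/-- The set `φ(M, b)` for a partitioned formula `φ(x, y)`, `|x| = m`, `|y| = n`. -/
def inst (φ : L.Formula (Fin m ⊕ Fin n)) (M : Type w) [L.Structure M] (b : Fin n → M) :
    Set (Fin m → M) :=
  {a | φ.Realize (Sum.elim a b)}

/-- The formula `φ` has FHP (read in the model `M`). -/
def HasFHP (φ : L.Formula (Fin m ⊕ Fin n)) (M : Type w) [L.Structure M] : Prop :=
  ∃ k : ℕ, ∀ α : ℝ, 0 < α → ∃ β : ℝ, 0 < β ∧ FamFHP (Set.range (inst φ M)) k α β

/-- `P` is (the parameter set of) a member `{φ(x, a_i) : i < k}` of `S_{φ,k}(A)`. -/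
def IsType (φ : L.Formula (Fin m ⊕ Fin n)) (M : Type w) [L.Structure M] (k : ℕ)
    (A : Set (Fin n → M)) (P : Set (Fin n → M)) : Prop :=
  ∃ a : Fin k → (Fin n → M), (∀ i, a i ∈ A) ∧ P = Set.range a ∧ (⋂ i, inst φ M (a i)).Nonempty

/-- 1-inconsistent types. -/
def OneIncons (φ : L.Formula (Fin m ⊕ Fin n)) (M : Type w) [L.Structure M]
    (P Q : Set (Fin n → M)) : Prop :=
  ∃ a ∈ P, ∃ b ∈ Q, inst φ M a ∩ inst φ M b = ∅

/-- The counting function `f_φ(k, l)`, as a supremum in `ℕ∞`. -/
noncomputable def count (φ : L.Formula (Fin m ⊕ Fin n)) (M : Type w) [L.Structure M]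
    (k l : ℕ) : ℕ∞ :=
  ⨆ (A : Set (Fin n → M)) (_ : A.encard = l) (S : Set (Set (Fin n → M)))
    (_ : ∀ P ∈ S, IsType φ M k A P) (_ : S.Pairwise (OneIncons φ M)), S.encard

/-- `f_φ` is polynomially bounded. -/
def PolyBounded (φ : L.Formula (Fin m ⊕ Fin n)) (M : Type w) [L.Structure M] : Prop :=
  ∃ d : ℕ, ∀ k : ℕ, ∃ C : ℕ, ∀ l : ℕ, k ≤ l → count φ M k l ≤ ((C * l ^ d : ℕ) : ℕ∞)

/-! ### The example -/

/-- The base structure: elements are sequences of naturals. -/
def M0 : Type := ℕ → ℕ

def rel (z b : ℕ → ℕ) : Prop :=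
  (z 0 = 0 ∧ z (b 0 + 1) = b 1) ∨ (z 0 = 1 ∧ b 2 = 0) ∨ (z 0 = 2 ∧ b 2 ≠ 0)

instance : Nonempty M0 := ⟨fun _ => 0⟩

instance str : Language.graph.Structure M0 where
  RelMap | .adj => (fun x => rel (x 0) (x 1))

def R {M : Type w} [Language.graph.Structure M] (a b : M) : Prop :=
  Structure.RelMap (L := Language.graph) Language.adj ![a, b]

def rf {ι : Type} (i j : ι) : Language.graph.Formula ι :=
  Language.adj.formula₂ (Term.var i) (Term.var j)

theorem realize_rf {M : Type w} [Language.graph.Structure M] {ι : Type} (i j : ι) (v : ι → M) :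
    (rf i j).Realize v ↔ R (v i) (v j) := by
  unfold rf R
  rw [Formula.realize_rel₂]
  simp

def phi : Language.graph.Formula (Fin 1 ⊕ Fin 1) := rf (Sum.inl 0) (Sum.inr 0)

theorem mem_inst {M : Type w} [Language.graph.Structure M] (a b : Fin 1 → M) :
    a ∈ inst phi M b ↔ R (a 0) (b 0) := by
  unfold inst phi
  simp only [Set.mem_setOf_eq]
  rw [realize_rf]
  simp

theorem R0 (a b : M0) : R a b ↔ rel a b := Iff.rfl

theorem transfer {M : Type w} [Language.graph.Structure M]
    (hM : M ⊨ Language.graph.completeTheory M0) {ι τ : Type} [Finite ι] [Finite τ]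
    (ψ : τ → Language.graph.Formula ι) (v : ι → M0) (h : ∀ t, (ψ t).Realize v) :
    ∃ u : ι → M, ∀ t, (ψ t).Realize u := by
  let σ : Language.graph.Sentence :=
    Formula.iExs ι (Formula.relabel (Sum.inr : ι → Empty ⊕ ι) (Formula.iInf ψ))
  have h0 : M0 ⊨ σ := by
    unfold Sentence.Realize
    rw [Formula.realize_iExs]
    refine ⟨v, ?_⟩
    rw [Formula.realize_relabel, Formula.realize_iInf]
    intro t
    simpa using h t
  have h1 : M ⊨ σ := Theory.realize_sentence_of_mem (Language.graph.completeTheory M0)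
    (mem_completeTheory.2 h0)
  unfold Sentence.Realize at h1
  rw [Formula.realize_iExs] at h1
  obtain ⟨u, hu⟩ := h1
  rw [Formula.realize_relabel, Formula.realize_iInf] at hu
  refine ⟨u, fun t => ?_⟩
  simpa using hu t

/-- two points cover all parameters -/
theorem two_points {M : Type w} [Language.graph.Structure M]
    (hM : M ⊨ Language.graph.completeTheory M0) :
    ∃ z0 z1 : M, ∀ b, R z0 b ∨ R z1 b := by
  let ψ : Unit → Language.graph.Formula Bool := fun _ =>
    Formula.iAlls Unit (rf (Sum.inl true) (Sum.inr ()) ⊔ rf (Sum.inl false) (Sum.inr ()))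
  obtain ⟨u, hu⟩ := transfer hM ψ (fun t => if t then (fun _ => 1) else (fun _ => 2)) (by
    intro _
    simp only [ψ]
    rw [Formula.realize_iAlls]
    intro i
    rw [Formula.realize_sup, realize_rf, realize_rf, R0, R0]
    unfold rel
    by_cases h : i () 2 = 0 <;> simp [h])
  refine ⟨u true, u false, fun b => ?_⟩
  have := hu ()
  simp only [ψ] at this
  rw [Formula.realize_iAlls] at this
  have h2 := this (fun _ => b)
  rw [Formula.realize_sup, realize_rf, realize_rf] at h2
  simpa using h2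

theorem hasFHP {M : Type w} [Language.graph.Structure M]
    (hM : M ⊨ Language.graph.completeTheory M0) : HasFHP phi M := by
  classical
  obtain ⟨z0, z1, hz⟩ := two_points hM
  refine ⟨1, fun α _ => ⟨1 / 2, by norm_num, ?_⟩⟩
  intro n S hS _
  choose b hb using hS
  let J0 : Finset (Fin n) := Finset.univ.filter fun i => R z0 (b i 0)
  let J1 : Finset (Fin n) := Finset.univ.filter fun i => ¬ R z0 (b i 0)
  have hc : J0.card + J1.card = n := by
    have := Finset.card_filter_add_card_filter_not (s := (Finset.univ : Finset (Fin n)))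
      (fun i => R z0 (b i 0))
    simpa using this
  have hcr : (J0.card : ℝ) + J1.card = n := by exact_mod_cast hc
  by_cases h : J1.card ≤ J0.card
  · have h' : (J1.card : ℝ) ≤ J0.card := by exact_mod_cast h
    refine ⟨J0, by linarith, ⟨fun _ => z0, ?_⟩⟩
    simp only [Set.mem_iInter]
    intro i hi
    rw [← hb i, mem_inst]
    simpa [J0] using hi
  · have h' : (J0.card : ℝ) ≤ J1.card := by exact_mod_cast (le_of_lt (not_le.1 h))
    refine ⟨J1, by linarith, ⟨fun _ => z1, ?_⟩⟩
    simp only [Set.mem_iInter]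
    intro i hi
    rw [← hb i, mem_inst]
    have : ¬ R z0 (b i 0) := by simpa [J1] using hi
    exact (hz (b i 0)).resolve_left this

/-- finite configurations -/
theorem config {M : Type w} [Language.graph.Structure M]
    (hM : M ⊨ Language.graph.completeTheory M0) (d N : ℕ) :
    ∃ (p : Fin d × Fin N × Bool → M) (z : (Fin d → Fin N) → M), Function.Injective p ∧
      (∀ g i s, R (z g) (p (i, g i, s))) ∧
      (∀ i a b, a ≠ b → ∀ x, ¬ (R x (p (i, a, true)) ∧ R x (p (i, b, false)))) := by
  classical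
  let ι : Type := (Fin d × Fin N × Bool) ⊕ (Fin d → Fin N)
  let v : ι → M0 := Sum.elim
    (fun q => fun j => if j = 0 then q.1.val else if j = 1 then q.2.1.val else
      if q.2.2 then 0 else 1)
    (fun g => fun j => if h : 0 < j ∧ j - 1 < d then (g ⟨j - 1, h.2⟩).val else 0)
  let G : (ι × ι) × Fin 3 → Language.graph.Formula ι := fun t =>
    if t.2 = 0 then (Term.equal (Term.var t.1.1) (Term.var t.1.2)).not
    else if t.2 = 1 then rf t.1.1 t.1.2
    else Formula.iAlls Unit
      (rf (Sum.inr ()) (Sum.inl t.1.1) ⊓ rf (Sum.inr ()) (Sum.inl t.1.2)).not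
  obtain ⟨u, hu⟩ := transfer hM (fun t : {t // (G t).Realize v} => G t.1) v (fun t => t.2)
  have hu' : ∀ t, (G t).Realize v → (G t).Realize u := fun t ht => hu ⟨t, ht⟩
  refine ⟨fun q => u (Sum.inl q), fun g => u (Sum.inr g), ?_, ?_, ?_⟩
  · intro q q' hq
    by_contra hne
    have := hu' ((Sum.inl q, Sum.inl q'), 0) (by
      simp only [G, if_true, Formula.realize_not, Formula.realize_equal, Term.realize_var]
      intro he
      apply hne
      have h0 := congrFun he 0
      have h1 := congrFun he 1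
      have h2 := congrFun he 2
      simp only [v, Sum.elim_inl] at h0 h1 h2
      obtain ⟨i, a, s⟩ := q
      obtain ⟨i', a', s'⟩ := q'
      simp at h0 h1 h2
      have e1 : i = i' := Fin.ext h0
      have e2 : a = a' := Fin.ext h1
      have e3 : s = s' := by cases s <;> cases s' <;> simp_all
      rw [e1, e2, e3])
    simp only [G, if_true, Formula.realize_not, Formula.realize_equal, Term.realize_var] at this
    exact this hq
  · intro g i s
    have := hu' ((Sum.inr g, Sum.inl (i, g i, s)), 1) (by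
      have e : G ((Sum.inr g, Sum.inl (i, g i, s)), 1) = rf (Sum.inr g) (Sum.inl (i, g i, s)) := by
        simp [G]
      rw [e, realize_rf, R0]
      left
      simp [v])
    have e : G ((Sum.inr g, Sum.inl (i, g i, s)), 1) = rf (Sum.inr g) (Sum.inl (i, g i, s)) := by
      simp [G]
    rw [e, realize_rf] at this
    exact this
  · intro i a b hab x
    have e : G ((Sum.inl (i, a, true), Sum.inl (i, b, false)), 2) = Formula.iAlls Unit
        (rf (Sum.inr ()) (Sum.inl (Sum.inl (i, a, true))) ⊓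
          rf (Sum.inr ()) (Sum.inl (Sum.inl (i, b, false)))).not := by
      simp [G]
    have := hu' ((Sum.inl (i, a, true), Sum.inl (i, b, false)), 2) (by
      rw [e, Formula.realize_iAlls]
      intro y
      rw [Formula.realize_not, Formula.realize_inf, realize_rf, realize_rf, R0, R0]
      have hab' : a.val ≠ b.val := fun h => hab (Fin.ext h)
      unfold rel
      simp [v]
      omega)
    rw [e, Formula.realize_iAlls] at this
    have h2 := this (fun _ => x)
    rw [Formula.realize_not, Formula.realize_inf, realize_rf, realize_rf] at h2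
    simpa using h2

theorem count_ge {M : Type w} [Language.graph.Structure M]
    (hM : M ⊨ Language.graph.completeTheory M0) (d N : ℕ) :
    ((N ^ d : ℕ) : ℕ∞) ≤ count phi M (d * 2) (d * (N * 2)) := by
  classical
  obtain ⟨p, z, hp, hz, hi⟩ := config hM d N
  let P : Fin d × Fin N × Bool → (Fin 1 → M) := fun q _ => p q
  have hP : Function.Injective P := fun q q' h => hp (congrFun h 0)
  let e : Fin (d * 2) ≃ Fin d × Bool :=
    finProdFinEquiv.symm.trans (Equiv.prodCongr (Equiv.refl _) finTwoEquiv)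
  let a : (Fin d → Fin N) → Fin (d * 2) → (Fin 1 → M) :=
    fun g j => P ((e j).1, g (e j).1, (e j).2)
  let T : (Fin d → Fin N) → Set (Fin 1 → M) := fun g => Set.range (a g)
  have hmem : ∀ g i s, P (i, g i, s) ∈ T g := fun g i s => ⟨e.symm (i, s), by simp [a]⟩
  have hinc : ∀ g g', g ≠ g' → OneIncons phi M (T g) (T g') := by
    intro g g' hg
    obtain ⟨i, hgi⟩ := Function.ne_iff.1 hg
    refine ⟨_, hmem g i true, _, hmem g' i false, ?_⟩
    rw [Set.eq_empty_iff_forall_notMem]
    intro x hx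
    rw [Set.mem_inter_iff, mem_inst, mem_inst] at hx
    exact hi i _ _ hgi (x 0) hx
  have hcons : ∀ g, ∀ b ∈ T g, (fun _ => z g : Fin 1 → M) ∈ inst phi M b := by
    rintro g b ⟨j, rfl⟩
    rw [mem_inst]
    exact hz g _ _
  have hT : Function.Injective T := by
    intro g g' h
    by_contra hg
    obtain ⟨b, hb, b', hb', he⟩ := hinc g g' hg
    rw [← h] at hb'
    have : (fun _ => z g : Fin 1 → M) ∈ inst phi M b ∩ inst phi M b' :=
      ⟨hcons g b hb, hcons g b' hb'⟩
    rw [he] at this
    exact this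
  have hA : (Set.range P).encard = ((d * (N * 2) : ℕ) : ℕ∞) := by
    rw [← Set.image_univ, hP.encard_image, Set.encard_univ, ENat.card_eq_coe_fintype_card]
    simp
  have hS : (Set.range T).encard = ((N ^ d : ℕ) : ℕ∞) := by
    rw [← Set.image_univ, hT.encard_image, Set.encard_univ, ENat.card_eq_coe_fintype_card]
    simp
  unfold count
  refine le_iSup_of_le (Set.range P) (le_iSup_of_le hA (le_iSup_of_le (Set.range T)
    (le_iSup_of_le ?_ (le_iSup_of_le ?_ (le_of_eq hS.symm)))))
  · rintro _ ⟨g, rfl⟩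
    refine ⟨a g, fun j => ⟨_, rfl⟩, rfl, ⟨fun _ => z g, ?_⟩⟩
    rw [Set.mem_iInter]
    intro j
    exact hcons g _ ⟨j, rfl⟩
  · rintro _ ⟨g, rfl⟩ _ ⟨g', rfl⟩ hne
    exact hinc g g' (fun h => hne (by rw [h]))

theorem not_poly {M : Type w} [Language.graph.Structure M]
    (hM : M ⊨ Language.graph.completeTheory M0) : ¬ PolyBounded phi M := by
  rintro ⟨d, hd⟩
  obtain ⟨C, hC⟩ := hd ((d + 1) * 2)
  set N : ℕ := C * ((d + 1) * 2) ^ d + 1 with hN
  have hN1 : 1 ≤ N := by omega
  have h1 := (count_ge hM (d + 1) N).trans (hC ((d + 1) * (N * 2)) (by nlinarith))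
  have h2 : N ^ (d + 1) ≤ C * ((d + 1) * (N * 2)) ^ d := by exact_mod_cast h1
  have h3 : ((d + 1) * (N * 2)) ^ d = ((d + 1) * 2) ^ d * N ^ d := by
    rw [← mul_pow]; congr 1; ring
  rw [h3, pow_succ, ← mul_assoc, mul_comm (N ^ d) N] at h2
  have h4 : 0 < N ^ d := by positivity
  have h5 : N ≤ C * ((d + 1) * 2) ^ d := Nat.le_of_mul_le_mul_right h2 h4
  omega

end H11.FHP

namespace Pool.Agent.Results.MP_f4a2a6_lc.NotPoly

open H11.FHP

universe w

theorem result :
    ∃ (L : FirstOrder.Language.{0, 0}) (T : L.Theory) (m n : ℕ) (φ : L.Formula (Fin m ⊕ Fin n)),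
      T.IsComplete ∧
      ∀ (M : Type w) [L.Structure M], M ⊨ T →
        HasFHP φ M ∧ ¬ PolyBounded φ M ∧
          ∀ d N : ℕ, ((N ^ d : ℕ) : ℕ∞) ≤ count φ M (d * 2) (d * (N * 2)) :=
  ⟨Language.graph, Language.graph.completeTheory M0, 1, 1, phi,
    completeTheory.isComplete _ _,
    fun _ _ hM => ⟨hasFHP hM, not_poly hM, count_ge hM⟩⟩

end Pool.Agent.Results.MP_f4a2a6_lc.NotPoly
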